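import Pool.Agent.P8H70.SR.Stm

set_option autoImplicit false

/-!
# SR/HB: Hölder continuity of an infinite product
-/

open Filter Topology Metric Set

namespace Pool.Agent.P8H45.SR.Hb

open Pool.Agent.P8H70.SR

/-- the sum which controls the product -/
noncomputable def F (c : ℝ) (N : ℕ) (d : ℝ) : ℝ := ∑ i ∈ Finset.range N, c ^ i * min 2 (2 ^ i * d)

theorem F_succ (c : ℝ) (N : ℕ) (d : ℝ) : F c (N + 1) d = min 2 d + c * F c N (2 * d) := by
  unfold F
  rw [Finset.sum_range_succ', Finset.mul_sum, pow_zero, pow_zero, one_mul, one_mul, add_comm]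
  congr 1
  refine Finset.sum_congr rfl fun i _ => ?_
  rw [pow_succ, pow_succ, mul_assoc (2 ^ i) 2 d]
  ring

theorem F_triv {c : ℝ} (hc0 : 0 ≤ c) (hc1 : c < 1) (N : ℕ) (d : ℝ) : F c N d ≤ 2 / (1 - c) := by
  have hc : 0 < 1 - c := by linarith
  induction N generalizing d with
  | zero =>
    unfold F
    rw [Finset.range_zero, Finset.sum_empty]
    positivity
  | succ N ih =>
    rw [F_succ]
    have h1 := mul_le_mul_of_nonneg_left (ih (2 * d)) hc0
    have h2 : min 2 d ≤ 2 := min_le_left _ _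
    have h3 : 2 / (1 - c) = 2 + c * (2 / (1 - c)) := by
      field_simp
      ring
    linarith

theorem F_le {α : ℝ} (h0 : 0 < α) (h1 : α < 1) : ∃ K : ℝ, 0 ≤ K ∧ ∀ (N : ℕ) (d : ℝ), 0 ≤ d →
    d ≤ 2 → F ((2 : ℝ) ^ (-α)) N d ≤ K * d ^ α := by
  obtain ⟨c, hc⟩ : ∃ c : ℝ, c = (2 : ℝ) ^ (-α) := ⟨_, rfl⟩
  rw [← hc]
  have hc0 : 0 < c := by rw [hc]; positivity
  have hc1 : c < 1 := by
    rw [hc]
    exact Real.rpow_lt_one_of_one_lt_of_neg (by norm_num) (by linarith)
  have hc2 : 1 < 2 * c := by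
    have h2 : 2 * c = (2 : ℝ) ^ (1 - α) := by
      rw [hc, Real.rpow_sub (by norm_num), Real.rpow_one, Real.rpow_neg (by norm_num)]
      rfl
    rw [h2]
    exact Real.one_lt_rpow (by norm_num) (by linarith)
  have hc3 : c * (2 : ℝ) ^ α = 1 := by
    rw [hc, ← Real.rpow_add (by norm_num), neg_add_cancel, Real.rpow_zero]
  obtain ⟨K', hK'⟩ : ∃ K' : ℝ, K' = 1 / (2 * c - 1) := ⟨_, rfl⟩
  have hK0 : 0 < K' := by
    rw [hK']
    have : 0 < 2 * c - 1 := by linarith
    positivity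
  have hK1 : (2 * c - 1) * K' = 1 := by
    rw [hK']
    have : 2 * c - 1 ≠ 0 := by linarith
    field_simp
  have hc4 : 0 < 2 / (1 - c) := by
    have : 0 < 1 - c := by linarith
    positivity
  obtain ⟨K, hK⟩ : ∃ K : ℝ, K = 2 / (1 - c) + 2 * K' := ⟨_, rfl⟩
  have hd1 : ∀ d : ℝ, 1 ≤ d → d ≤ 2 → 2 / (1 - c) ≤ K * d ^ α - K' * d := by
    intro d hd hd2
    have h2 : 1 ≤ d ^ α := Real.one_le_rpow hd h0.le
    have h3 : K ≤ K * d ^ α := by
      have : 0 ≤ K := by rw [hK]; positivity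
      nlinarith
    have h4 : K' * d ≤ 2 * K' := by nlinarith
    linarith
  have key : ∀ (N : ℕ) (d : ℝ), 0 ≤ d → d ≤ 2 → F c N d ≤ K * d ^ α - K' * d := by
    intro N
    induction N with
    | zero =>
      intro d hd hd2
      unfold F
      rw [Finset.range_zero, Finset.sum_empty]
      rcases le_or_gt 1 d with h2 | h2
      · exact hc4.le.trans (hd1 d h2 hd2)
      · have h3 : d ≤ d ^ α := by
          rcases hd.eq_or_lt with h4 | h4
          · rw [← h4, Real.zero_rpow h0.ne']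
          · calc d = d ^ (1 : ℝ) := (Real.rpow_one d).symm
              _ ≤ d ^ α := Real.rpow_le_rpow_of_exponent_ge h4 h2.le h1.le
        have h4 : K' * d ≤ K' * d ^ α := mul_le_mul_of_nonneg_left h3 hK0.le
        have h5 : 0 ≤ d ^ α := Real.rpow_nonneg hd α
        have h6 : K' * d ^ α ≤ K * d ^ α := mul_le_mul_of_nonneg_right (by rw [hK]; linarith) h5
        linarith
    | succ N ih =>
      intro d hd hd2
      rcases le_or_gt 1 d with h2 | h2
      · exact (F_triv hc0.le hc1 _ _).trans (hd1 d h2 hd2)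
      · rw [F_succ]
        have h3 := mul_le_mul_of_nonneg_left (ih (2 * d) (by linarith) (by linarith)) hc0.le
        have h4 : min 2 d ≤ d := min_le_right _ _
        have h5 : c * (K * (2 * d) ^ α - K' * (2 * d)) = K * d ^ α - 2 * c * K' * d := by
          rw [Real.mul_rpow (by norm_num) hd]
          linear_combination (K * d ^ α) * hc3
        rw [h5] at h3
        have h6 : 2 * c * K' * d = K' * d + d := by
          linear_combination d * hK1
        linarith
  refine ⟨K, by rw [hK]; positivity, fun N d hd hd2 => ?_⟩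
  have h2 := key N d hd hd2
  have h3 : 0 ≤ K' * d := by positivity
  linarith

/-- the orbit -/
noncomputable def orb (σ : ℕ → ℂ) (z : ℂ) : ℕ → ℂ
  | 0 => z
  | i + 1 => σ i * (orb σ z i) ^ 2

theorem orb_norm {σ : ℕ → ℂ} (hσ : ∀ i, ‖σ i‖ = 1) {z : ℂ} (hz : ‖z‖ < 1) (i : ℕ) :
    ‖orb σ z i‖ < 1 := by
  induction i with
  | zero => exact hz
  | succ i ih =>
    rw [orb, norm_mul, hσ, one_mul, norm_pow]
    exact pow_lt_one₀ (norm_nonneg _) ih two_ne_zero

theorem orb_dist {σ : ℕ → ℂ} (hσ : ∀ i, ‖σ i‖ = 1) {z w : ℂ} (hz : ‖z‖ < 1) (hw : ‖w‖ < 1)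
    (i : ℕ) : ‖orb σ z i - orb σ w i‖ ≤ min 2 (2 ^ i * ‖z - w‖) := by
  refine le_min ?_ ?_
  · have h1 := orb_norm hσ hz i
    have h2 := orb_norm hσ hw i
    have h3 := norm_sub_le (orb σ z i) (orb σ w i)
    linarith
  · induction i with
    | zero => rw [pow_zero, one_mul]; exact le_refl _
    | succ i ih =>
      have h1 : orb σ z (i + 1) - orb σ w (i + 1) =
          σ i * ((orb σ z i - orb σ w i) * (orb σ z i + orb σ w i)) := by
        rw [orb, orb]
        ring
      rw [h1, norm_mul, hσ, one_mul, norm_mul]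
      have h2 : ‖orb σ z i + orb σ w i‖ ≤ 2 := by
        have h1 := orb_norm hσ hz i
        have h2 := orb_norm hσ hw i
        have h3 := norm_add_le (orb σ z i) (orb σ w i)
        linarith
      calc ‖orb σ z i - orb σ w i‖ * ‖orb σ z i + orb σ w i‖
          ≤ (2 ^ i * ‖z - w‖) * 2 := mul_le_mul ih h2 (norm_nonneg _) (by positivity)
        _ = 2 ^ (i + 1) * ‖z - w‖ := by ring

theorem norm_ge {x : ℂ} {r : ℝ} (h : ‖x - 1‖ ≤ r) (hr : r ≤ 1 / 2) : 1 / 2 ≤ ‖x‖ := by
  have h1 := norm_sub_norm_le (1 : ℂ) x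
  rw [norm_one, norm_sub_rev] at h1
  linarith

theorem hb : S_HB := by
  intro P q σ a b A α h0 h1 hσ ha0 ha1 haA hq1 hq2 hPq hP1 hb hb1
  obtain ⟨K, hK0, hK⟩ := F_le h0 h1
  have hA : 0 ≤ A := by
    have h2 := (ha0 0).trans (haA 0)
    rwa [Nat.cast_zero, mul_zero, Real.rpow_zero, mul_one] at h2
  refine ⟨3 / 2 * (2 * A * K) * Real.exp (2 * A * K * 2 ^ α), by positivity, ?_⟩
  intro z hz w hw
  have hz' : ‖z‖ < 1 := by simpa using hz
  have hw' : ‖w‖ < 1 := by simpa using hw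
  have mz : ∀ i, orb σ z i ∈ ball (0 : ℂ) 1 := fun i => by simpa using orb_norm hσ hz' i
  have mw : ∀ i, orb σ w i ∈ ball (0 : ℂ) 1 := fun i => by simpa using orb_norm hσ hw' i
  -- lower bounds
  have pz : ∀ i, 1 / 2 ≤ ‖P i (orb σ z i)‖ := fun i => norm_ge (hP1 i _ (mz i)) (hb1 i)
  have pw : ∀ i, 1 / 2 ≤ ‖P i (orb σ w i)‖ := fun i => norm_ge (hP1 i _ (mw i)) (hb1 i)
  have qz : ∀ i, 1 / 2 ≤ ‖q i (orb σ z i)‖ := fun i => norm_ge (hq1 i _ (mz i)) (ha1 i)
  have qw : ∀ i, 1 / 2 ≤ ‖q i (orb σ w i)‖ := fun i => norm_ge (hq1 i _ (mw i)) (ha1 i)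
  have ne : ∀ {x : ℂ}, 1 / 2 ≤ ‖x‖ → x ≠ 0 := by
    rintro x hx rfl
    rw [norm_zero] at hx
    norm_num at hx
  let R : ℕ → ℂ := fun i => P i (orb σ z i) / P i (orb σ w i)
  let D : ℕ → ℝ := fun i => 2 * (a i * ‖orb σ z i - orb σ w i‖)
  have step : ∀ i, ‖R i - 1‖ + 1 ≤ (‖R (i + 1) - 1‖ + 1) * (1 + D i) := by
    intro i
    have e1 : R i = R (i + 1) * (q i (orb σ w i) / q i (orb σ z i)) := by
      have e2 := hPq i _ (mz i)
      have e3 := hPq i _ (mw i)
      have n1 := ne (pw i)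
      have n2 := ne (qz i)
      have n3 := ne (qw i)
      simp only [R, orb]
      rw [← e2, ← e3]
      field_simp
    have e2 : ‖q i (orb σ w i) / q i (orb σ z i) - 1‖ ≤ D i := by
      have n2 := ne (qz i)
      rw [div_sub_one n2, norm_div, div_le_iff₀ (by linarith [qz i])]
      have e3 := hq2 i _ (mw i) _ (mz i)
      rw [norm_sub_rev (orb σ w i)] at e3
      have e4 : 0 ≤ a i * ‖orb σ z i - orb σ w i‖ := mul_nonneg (ha0 i) (norm_nonneg _)
      have e5 := qz i
      simp only [D]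
      nlinarith
    have e3 : R i - 1 = (R (i + 1) - 1) * (q i (orb σ w i) / q i (orb σ z i) - 1) +
        (R (i + 1) - 1) + (q i (orb σ w i) / q i (orb σ z i) - 1) := by
      rw [e1]
      ring
    have e4 : ‖R i - 1‖ ≤ ‖R (i + 1) - 1‖ * D i + ‖R (i + 1) - 1‖ + D i := by
      rw [e3]
      refine (norm_add₃_le).trans ?_
      rw [norm_mul]
      have := mul_le_mul_of_nonneg_left e2 (norm_nonneg (R (i + 1) - 1))
      linarith
    linarith
  have tot : ∀ N, ‖R 0 - 1‖ + 1 ≤ (‖R N - 1‖ + 1) * Real.exp (∑ i ∈ Finset.range N, D i) := by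
    intro N
    induction N with
    | zero => rw [Finset.range_zero, Finset.sum_empty, Real.exp_zero, mul_one]
    | succ N ih =>
      refine ih.trans ?_
      rw [Finset.sum_range_succ, add_comm (∑ i ∈ Finset.range N, D i), Real.exp_add, ← mul_assoc]
      refine mul_le_mul_of_nonneg_right ((step N).trans ?_) (Real.exp_pos _).le
      refine mul_le_mul_of_nonneg_left ?_ (by positivity)
      have := Real.add_one_le_exp (D N)
      linarith
  obtain ⟨d, hd⟩ : ∃ d : ℝ, d = ‖z - w‖ := ⟨_, rfl⟩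
  have hd0 : 0 ≤ d := by rw [hd]; exact norm_nonneg _
  have hd2 : d ≤ 2 := by
    rw [hd]
    have := norm_sub_le z w
    linarith
  have sumD : ∀ N, ∑ i ∈ Finset.range N, D i ≤ 2 * A * K * d ^ α := by
    intro N
    have e1 : ∑ i ∈ Finset.range N, D i ≤ 2 * A * F ((2 : ℝ) ^ (-α)) N d := by
      unfold F
      rw [Finset.mul_sum]
      refine Finset.sum_le_sum fun i _ => ?_
      have e2 := orb_dist hσ hz' hw' i
      have e3 := haA i
      rw [Real.rpow_mul (by norm_num), Real.rpow_natCast] at e3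
      have e4 : a i * ‖orb σ z i - orb σ w i‖ ≤
          A * ((2 : ℝ) ^ (-α)) ^ i * min 2 (2 ^ i * ‖z - w‖) :=
        mul_le_mul e3 e2 (norm_nonneg _) (by positivity)
      simp only [D]
      rw [hd]
      linarith
    refine e1.trans ?_
    rw [mul_assoc (2 * A)]
    exact mul_le_mul_of_nonneg_left (hK N d hd0 hd2) (by positivity)
  have lim : ‖R 0 - 1‖ + 1 ≤ Real.exp (2 * A * K * d ^ α) := by
    have e1 : ∀ N, ‖R 0 - 1‖ + 1 ≤ (4 * b N + 1) * Real.exp (2 * A * K * d ^ α) := by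
      intro N
      refine (tot N).trans (mul_le_mul ?_ (Real.exp_le_exp.2 (sumD N)) (Real.exp_pos _).le ?_)
      · have n1 := ne (pw N)
        have e2 : ‖R N - 1‖ ≤ 4 * b N := by
          simp only [R]
          rw [div_sub_one n1, norm_div, div_le_iff₀ (by linarith [pw N])]
          have e3 := hP1 N _ (mz N)
          have e4 := hP1 N _ (mw N)
          have e5 : P N (orb σ z N) - P N (orb σ w N) =
            (P N (orb σ z N) - 1) - (P N (orb σ w N) - 1) := by ring
          have e6 := norm_sub_le (P N (orb σ z N) - 1) (P N (orb σ w N) - 1)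
          rw [← e5] at e6
          have e7 := pw N
          have e8 : 0 ≤ b N := (norm_nonneg _).trans e3
          nlinarith
        linarith
      · have e8 : 0 ≤ b N := (norm_nonneg _).trans (hP1 N _ (mz N))
        positivity
    have e2 : Tendsto (fun N => (4 * b N + 1) * Real.exp (2 * A * K * d ^ α)) atTop
        (𝓝 ((4 * 0 + 1) * Real.exp (2 * A * K * d ^ α))) :=
      ((hb.const_mul 4).add_const 1).mul_const _
    rw [mul_zero, zero_add, one_mul] at e2
    exact ge_of_tendsto' e2 e1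
  -- the end
  have n1 := ne (pw 0)
  have e1 : P 0 z - P 0 w = P 0 w * (R 0 - 1) := by
    have n2 : P 0 w ≠ 0 := n1
    simp only [R, orb]
    field_simp
  have e2 : ‖P 0 w‖ ≤ 3 / 2 := by
    have e3 := hP1 0 w hw
    have e4 := hb1 0
    have e5 : P 0 w = (P 0 w - 1) + 1 := by ring
    rw [e5]
    refine (norm_add_le _ _).trans ?_
    rw [norm_one]
    linarith
  obtain ⟨E, hE⟩ : ∃ E : ℝ, E = 2 * A * K * d ^ α := ⟨_, rfl⟩
  have hda : 0 ≤ d ^ α := Real.rpow_nonneg hd0 α
  have hE0 : 0 ≤ E := by rw [hE]; positivity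
  rw [← hE] at lim
  have e3 : ‖R 0 - 1‖ ≤ E * Real.exp E := by
    have e4 := Real.add_one_le_exp (-E)
    have e5 : Real.exp E * Real.exp (-E) = 1 := by rw [← Real.exp_add, add_neg_cancel, Real.exp_zero]
    have e6 := mul_le_mul_of_nonneg_left e4 (Real.exp_pos E).le
    rw [e5] at e6
    linarith
  have e4 : Real.exp E ≤ Real.exp (2 * A * K * 2 ^ α) := by
    refine Real.exp_le_exp.2 ?_
    rw [hE]
    exact mul_le_mul_of_nonneg_left (Real.rpow_le_rpow hd0 hd2 h0.le) (by positivity)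
  rw [e1, norm_mul, ← hd]
  calc ‖P 0 w‖ * ‖R 0 - 1‖ ≤ 3 / 2 * (E * Real.exp (2 * A * K * 2 ^ α)) := by
        refine mul_le_mul e2 (e3.trans (mul_le_mul_of_nonneg_left e4 hE0)) (norm_nonneg _)
          (by norm_num)
    _ = 3 / 2 * (2 * A * K) * Real.exp (2 * A * K * 2 ^ α) * d ^ α := by
        rw [hE]
        ring

end Pool.Agent.P8H45.SR.Hb
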