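import Pool.Agent.P8H70.SR.Stm

set_option autoImplicit false

/-!
# SR/CORE: the induction on the abstract system
-/

open Filter Topology Metric Set

namespace Pool.Agent.P8H45.SR.Core

open Pool.Agent.P8H70.SR

theorem co_zero (f : ℂ → ℂ) : co 0 f = f 0 := by
  unfold co
  rw [iteratedDeriv_zero, Nat.factorial_zero, Nat.cast_one, div_one]

theorem term_nonneg {κ : ℝ} (hκ : 1 ≤ κ) (l : ℕ) (f : ℂ → ℂ) : 0 ≤ ‖co l f‖ * κ ^ sd l :=
  mul_nonneg (norm_nonneg _) (pow_nonneg (by linarith) _)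

theorem NN_nonneg {κ : ℝ} (hκ : 1 ≤ κ) (m : ℕ) (f : ℂ → ℂ) : 0 ≤ NN κ m f :=
  Finset.sum_nonneg fun l _ => term_nonneg hκ l f

theorem NN_mono {κ : ℝ} (hκ : 1 ≤ κ) {m n : ℕ} (h : m ≤ n) (f : ℂ → ℂ) : NN κ m f ≤ NN κ n f :=
  Finset.sum_le_sum_of_subset_of_nonneg (Finset.range_mono (by omega)) fun l _ _ =>
    term_nonneg hκ l f

theorem single {κ : ℝ} (hκ : 1 ≤ κ) {m l : ℕ} (h : l ≤ m) (f : ℂ → ℂ) :
    ‖co l f‖ * κ ^ sd l ≤ NN κ m f :=
  Finset.single_le_sum (f := fun l => ‖co l f‖ * κ ^ sd l) (fun l _ => term_nonneg hκ l f)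
    (Finset.mem_range.2 (by omega))

theorem exp_three : Real.exp 1 ≤ 3 := by
  have := Real.exp_one_lt_d9
  linarith

theorem exp_sum {x : ℝ} (h0 : 0 ≤ x) (h1 : x ≤ 1) (N : ℕ) :
    ∑ l ∈ Finset.range N, ‖co l Complex.exp‖ * x ^ l ≤ 3 := by
  have e1 : ∀ l, ‖co l Complex.exp‖ * x ^ l ≤ (1 : ℝ) ^ l / (l.factorial : ℝ) := by
    intro l
    have e2 : ‖co l Complex.exp‖ = 1 / (l.factorial : ℝ) := by
      unfold co
      rw [iteratedDeriv_eq_iterate, Complex.iter_deriv_exp, Complex.exp_zero, norm_div, norm_one,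
        Complex.norm_natCast]
    rw [e2, one_pow]
    exact mul_le_of_le_one_right (by positivity) (pow_le_one₀ h0 h1)
  exact ((Finset.sum_le_sum fun l _ => e1 l).trans
    (Real.sum_le_exp_of_nonneg zero_le_one N)).trans exp_three

theorem co_shift (hco : S_CO) (F : ℂ → ℂ) (hF : AnalyticAt ℂ F 0) (l m : ℕ) :
    co m (fun z => z ^ l * F z) = if l ≤ m then co (m - l) F else 0 := by
  obtain ⟨c1, c2, c3, -, c5, -, -, -, c9⟩ := hco
  induction l generalizing m with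
  | zero => simp
  | succ l ih =>
    have h1 : (fun z : ℂ => z ^ (l + 1) * F z) = fun z => z * (z ^ l * F z) := by
      funext z
      ring
    have h2 : AnalyticAt ℂ (fun z : ℂ => z ^ l * F z) 0 := (analyticAt_id.pow l).mul hF
    rw [h1]
    cases m with
    | zero => simp [co_zero]
    | succ m =>
      rw [c5 m _ h2, ih m]
      by_cases h3 : l ≤ m
      · rw [if_pos h3, if_pos (by omega), Nat.succ_sub_succ]
      · rw [if_neg h3, if_neg (by omega)]

theorem core (hdig : S_DIG) (hco : S_CO) (hcomp : S_COMP) (hnrm : S_NRM) : S_CORE := by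
  have hco' := hco
  obtain ⟨-, -, -, -, -, dig⟩ := hdig
  obtain ⟨c1, c2, c3, -, c5, -, -, -, c9⟩ := hco
  intro A r₀ hA hr0 hr1
  obtain ⟨C, hC⟩ : ∃ C : ℝ, C = 3 * A + 18 / r₀ ^ 2 := ⟨_, rfl⟩
  have hC3 : 3 ≤ C := by
    have : 0 ≤ 18 / r₀ ^ 2 := by positivity
    linarith
  obtain ⟨κ, hκ⟩ : ∃ κ : ℝ, κ = 256 * C := ⟨_, rfl⟩
  have hκ1 : 1 ≤ κ := by linarith
  have hκ0 : 0 < κ := by linarith
  obtain ⟨n1, n2, n3, n4, n5⟩ := hnrm κ hκ1
  -- epsilon
  obtain ⟨ε, hε0, hε1, hε2⟩ : ∃ ε : ℝ, 0 < ε ∧ 3 * κ * ε ≤ r₀ / 2 ∧ C * κ ^ 2 * ε ^ 2 ≤ 1 := by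
    have hC0 : 0 < C := by linarith
    refine ⟨r₀ / (6 * κ * C), by positivity, ?_, ?_⟩
    · have e1 : 3 * κ * (r₀ / (6 * κ * C)) = r₀ / 2 * (1 / C) := by
        field_simp
        ring
      rw [e1]
      refine mul_le_of_le_one_right (by positivity) ?_
      rw [div_le_one hC0]
      linarith
    · have e1 : C * κ ^ 2 * (r₀ / (6 * κ * C)) ^ 2 = r₀ ^ 2 / (36 * C) := by
        field_simp
        ring
      rw [e1, div_le_one (by positivity)]
      nlinarith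
  refine ⟨ε, hε0, fun g L ρ σ S => ?_⟩
  have hρ0 : ∀ i, 0 < ρ i := S.ρ_pos
  have hρε : ∀ i, ρ i ≤ ε := S.ρ_le
  have bd1 : ∀ i, 3 * κ * ρ i ≤ r₀ / 2 := fun i =>
    (mul_le_mul_of_nonneg_left (hρε i) (by positivity)).trans hε1
  have nρ : ∀ i, ‖(ρ i : ℂ)‖ = ρ i := fun i => by
    rw [Complex.norm_real, Real.norm_of_nonneg (hρ0 i).le]
  -- analyticity
  have ga : ∀ i, AnalyticAt ℂ (g i) 0 := fun i =>
    (S.g_diff i).analyticAt (ball_mem_nhds 0 one_pos)
  have ea : ∀ i, AnalyticAt ℂ (fun ζ => Complex.exp (g i ζ)) 0 := fun i => (ga i).cexp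
  have za : ∀ i, AnalyticAt ℂ (fun ζ => ζ * Complex.exp (g i ζ)) 0 := fun i =>
    analyticAt_id.mul (ea i)
  obtain ⟨h, hh⟩ : ∃ h : ℕ → ℂ → ℂ, h = fun i ζ => (ρ i : ℂ) * (ζ * Complex.exp (g i ζ)) :=
    ⟨_, rfl⟩
  have hh' : ∀ i ζ, h i ζ = (ρ i : ℂ) * (ζ * Complex.exp (g i ζ)) := fun i ζ => by rw [hh]
  have hfun : ∀ i, h i = fun ζ => (ρ i : ℂ) * (ζ * Complex.exp (g i ζ)) := fun i => by rw [hh]
  have hd : ∀ i, DifferentiableOn ℂ (h i) (ball 0 1) := fun i => by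
    rw [hfun]
    exact (differentiableOn_id.mul (S.g_diff i).cexp).const_mul _
  have hb : ∀ i, ∀ ζ ∈ ball (0 : ℂ) 1, ‖h i ζ‖ ≤ r₀ / 2 := by
    intro i ζ hζ
    have e1 : ‖ζ‖ ≤ 1 := by
      rw [mem_ball_zero_iff] at hζ
      exact hζ.le
    have e2 : ‖Complex.exp (g i ζ)‖ ≤ 3 := by
      refine (Complex.norm_exp_le_exp_norm _).trans (le_trans (Real.exp_le_exp.2 ?_) exp_three)
      have := S.g_bdd i ζ hζ
      linarith
    rw [hh', norm_mul, norm_mul, nρ]
    have e3 : ‖ζ‖ * ‖Complex.exp (g i ζ)‖ ≤ 1 * 3 :=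
      mul_le_mul e1 e2 (norm_nonneg _) zero_le_one
    have e4 : ρ i * (‖ζ‖ * ‖Complex.exp (g i ζ)‖) ≤ ρ i * (1 * 3) :=
      mul_le_mul_of_nonneg_left e3 (hρ0 i).le
    have e5 : ρ i * (1 * 3) ≤ 3 * κ * ρ i := by
      have := mul_le_mul_of_nonneg_right hκ1 (hρ0 i).le
      linarith
    linarith [bd1 i]
  have Ld : ∀ i, DifferentiableOn ℂ (fun ζ => L i (h i ζ)) (ball 0 1) := fun i =>
    (S.L_diff i).comp (hd i) fun ζ hζ => by
      rw [mem_ball_zero_iff]
      linarith [hb i ζ hζ]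
  have La : ∀ i, AnalyticAt ℂ (fun ζ => L i (h i ζ)) 0 := fun i =>
    (Ld i).analyticAt (ball_mem_nhds 0 one_pos)
  have sa : ∀ i, AnalyticAt ℂ (fun ζ => g (i + 1) (σ i * ζ ^ 2)) 0 := by
    intro i
    have e1 : AnalyticAt ℂ (fun ζ : ℂ => σ i * ζ ^ 2) 0 :=
      analyticAt_const.mul (analyticAt_id.pow 2)
    refine AnalyticAt.fun_comp ?_ e1
    have e2 : σ i * (0 : ℂ) ^ 2 = 0 := by rw [zero_pow two_ne_zero, mul_zero]
    rw [e2]
    exact ga (i + 1)
  -- the equation for the coefficients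
  have eqco : ∀ i l, 2 * co l (g i) =
      -co l (fun ζ => L i (h i ζ)) + co l (fun ζ => g (i + 1) (σ i * ζ ^ 2)) := by
    intro i l
    have e0 : AnalyticAt ℂ (fun ζ => -1 * L i (h i ζ)) 0 := analyticAt_const.mul (La i)
    rw [← c3 l 2 (g i) (ga i), neg_eq_neg_one_mul, ← c3 l (-1) _ (La i),
      ← c2 l (fun ζ => -1 * L i (h i ζ)) (fun ζ => g (i + 1) (σ i * ζ ^ 2)) e0 (sa i)]
    refine c1 l _ _ ?_
    filter_upwards [ball_mem_nhds (0 : ℂ) one_pos] with ζ hζ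
    rw [S.eq i ζ hζ, hh', mul_assoc]
    ring
  -- the sum of the coefficients of `L`
  have Lsum : ∀ (i : ℕ) (t : ℝ), 0 ≤ t → t ≤ r₀ / 2 → ∀ N : ℕ,
      ∑ l ∈ Finset.range N, ‖co l (L i)‖ * t ^ l ≤ A * ρ i * t + 2 * (t / r₀) ^ 2 := by
    intro i t ht0 ht1 N
    have e1 : ∑ l ∈ Finset.range N, ‖co l (L i)‖ * t ^ l ≤
        ∑ l ∈ Finset.range (N + 1 + 1), ‖co l (L i)‖ * t ^ l :=
      Finset.sum_le_sum_of_subset_of_nonneg (Finset.range_mono (by omega)) fun l _ _ => by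
        positivity
    refine e1.trans ?_
    rw [Finset.sum_range_succ', Finset.sum_range_succ', co_zero, S.L_zero, norm_zero, zero_mul,
      add_zero]
    have e2 : ‖co (0 + 1) (L i)‖ * t ^ (0 + 1) ≤ A * ρ i * t := by
      rw [zero_add, pow_one]
      exact mul_le_mul_of_nonneg_right (S.L_one i) ht0
    have e3 : ∀ l, ‖co (l + 1 + 1) (L i)‖ * t ^ (l + 1 + 1) ≤ (t / r₀) ^ 2 * (1 / 2) ^ l := by
      intro l
      have e4 := c9 (l + 1 + 1) (L i) r₀ 1 hr0 (S.L_diff i) (S.L_bdd i)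
      have e5 : ‖co (l + 1 + 1) (L i)‖ * t ^ (l + 1 + 1) ≤
          1 / r₀ ^ (l + 1 + 1) * t ^ (l + 1 + 1) :=
        mul_le_mul_of_nonneg_right e4 (by positivity)
      refine e5.trans ?_
      have e6 : 1 / r₀ ^ (l + 1 + 1) * t ^ (l + 1 + 1) = (t / r₀) ^ 2 * (t / r₀) ^ l := by
        rw [← pow_add, div_pow, add_comm 2 l]
        ring
      rw [e6]
      refine mul_le_mul_of_nonneg_left (pow_le_pow_left₀ (by positivity) ?_ l) (by positivity)
      rw [div_le_iff₀ hr0]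
      linarith
    have e4 : ∑ l ∈ Finset.range N, ‖co (l + 1 + 1) (L i)‖ * t ^ (l + 1 + 1) ≤
        (t / r₀) ^ 2 * 2 := by
      refine (Finset.sum_le_sum fun l _ => e3 l).trans ?_
      rw [← Finset.mul_sum]
      exact mul_le_mul_of_nonneg_left (sum_geometric_two_le N) (by positivity)
    refine (add_le_add e4 e2).trans (le_of_eq ?_)
    ring
  have tbd : ∀ i, A * ρ i * (3 * κ * ρ i) + 2 * (3 * κ * ρ i / r₀) ^ 2 ≤ C * κ ^ 2 * ρ i ^ 2 := by
    intro i
    have e1 : A * ρ i * (3 * κ * ρ i) + 2 * (3 * κ * ρ i / r₀) ^ 2 =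
        (3 * A * κ + 18 / r₀ ^ 2 * κ ^ 2) * ρ i ^ 2 := by
      field_simp
      ring
    rw [e1, hC]
    refine mul_le_mul_of_nonneg_right ?_ (by positivity)
    have e2 : 3 * A * κ ≤ 3 * A * κ ^ 2 := mul_le_mul_of_nonneg_left (by nlinarith) (by positivity)
    linarith
  -- norms of the exponentials
  have eg : ∀ i m, NN κ m (g i) ≤ 1 → NN κ m (fun ζ => Complex.exp (g i ζ)) ≤ 3 := fun i m hm =>
    n5 Complex.exp (g i) 1 (1 / 2) 1 (by norm_num) (by norm_num) one_pos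
      Complex.differentiable_exp.differentiableOn (S.g_diff i) (S.g_bdd i) m 3
      fun N => exp_sum (NN_nonneg hκ1 _ _) hm N
  have main : ∀ m i, NN κ m (g i) ≤ 1 := by
    intro m
    induction m with
    | zero =>
      intro i
      unfold NN
      rw [zero_add, Finset.sum_range_one, co_zero, S.g_zero, norm_zero, zero_mul]
      exact zero_le_one
    | succ m ih =>
      intro i
      have t1 : NN κ (m + 1) (h i) ≤ 3 * κ * ρ i := by
        have e1 : NN κ (m + 1) (h i) =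
            ρ i * NN κ (m + 1) (fun ζ => ζ * Complex.exp (g i ζ)) := by
          unfold NN
          rw [Finset.mul_sum]
          refine Finset.sum_congr rfl fun l _ => ?_
          rw [hfun, c3 l _ _ (za i), norm_mul, nρ, mul_assoc]
        have e2 := n3 m _ (ea i)
        have e3 := mul_le_mul_of_nonneg_left (eg i m (ih i)) hκ0.le
        have e4 := mul_le_mul_of_nonneg_left (e2.trans e3) (hρ0 i).le
        rw [e1]
        linarith
      have t2 : NN κ (m + 1) (fun ζ => L i (h i ζ)) ≤ 1 := by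
        refine n5 (L i) (h i) r₀ (r₀ / 2) 1 (by positivity) (by linarith) one_pos (S.L_diff i)
          (hd i) (hb i) (m + 1) 1 fun N => ?_
        have e1 : ∑ l ∈ Finset.range N, ‖co l (L i)‖ * NN κ (m + 1) (h i) ^ l ≤
            ∑ l ∈ Finset.range N, ‖co l (L i)‖ * (3 * κ * ρ i) ^ l :=
          Finset.sum_le_sum fun l _ => mul_le_mul_of_nonneg_left
            (pow_le_pow_left₀ (NN_nonneg hκ1 _ _) t1 l) (norm_nonneg _)
        have e2 := Lsum i (3 * κ * ρ i) (by have := hρ0 i; positivity) (bd1 i) N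
        have e3 : C * κ ^ 2 * ρ i ^ 2 ≤ C * κ ^ 2 * ε ^ 2 :=
          mul_le_mul_of_nonneg_left (pow_le_pow_left₀ (hρ0 i).le (hρε i) 2)
            (by positivity)
        linarith [tbd i]
      have t3 : NN κ (m + 1) (fun ζ => g (i + 1) (σ i * ζ ^ 2)) ≤ 1 :=
        ((n4 (m + 1) (g (i + 1)) (σ i) (ga _) (S.hσ i)).1.trans
          (NN_mono hκ1 (by omega) _)).trans (ih (i + 1))
      have t4 : 2 * NN κ (m + 1) (g i) ≤ NN κ (m + 1) (fun ζ => L i (h i ζ)) +
          NN κ (m + 1) (fun ζ => g (i + 1) (σ i * ζ ^ 2)) := by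
        unfold NN
        rw [Finset.mul_sum, ← Finset.sum_add_distrib]
        refine Finset.sum_le_sum fun l _ => ?_
        have e1 : 2 * ‖co l (g i)‖ ≤ ‖co l (fun ζ => L i (h i ζ))‖ +
            ‖co l (fun ζ => g (i + 1) (σ i * ζ ^ 2))‖ := by
          have e2 : 2 * ‖co l (g i)‖ = ‖2 * co l (g i)‖ := by
            rw [norm_mul, Complex.norm_ofNat]
          rw [e2, eqco]
          refine (norm_add_le _ _).trans ?_
          rw [norm_neg]
        have e3 := mul_le_mul_of_nonneg_right e1 (pow_nonneg hκ0.le (sd l))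
        linarith
      linarith
  -- the coefficients at powers of two
  have est : ∀ i s, κ ^ s * ‖co (2 ^ s) (fun ζ => L i (h i ζ))‖ ≤ C * κ * ρ i ^ 2 := by
    intro i s
    have hs := hcomp (L i) (h i) r₀ (r₀ / 2) 1 (by positivity) (by linarith) one_pos (S.L_diff i)
          (hd i) (hb i) (2 ^ s)
    have hterm : ∀ l, 1 ≤ l →
        κ * (κ ^ s * ‖co (2 ^ s) (fun z => h i z ^ l)‖) ≤ (3 * κ * ρ i) ^ l := by
      intro l hl
      have e0 : AnalyticAt ℂ (fun z => Complex.exp (g i z) ^ l) 0 := (ea i).pow l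
      have e1 : (fun z => h i z ^ l) = fun z => (ρ i : ℂ) ^ l * (z ^ l * Complex.exp (g i z) ^ l) := by
        funext z
        rw [hh', mul_pow, mul_pow]
      have e2 : AnalyticAt ℂ (fun z => z ^ l * Complex.exp (g i z) ^ l) 0 :=
        (analyticAt_id.pow l).mul e0
      rw [e1, c3 _ _ (fun z => z ^ l * Complex.exp (g i z) ^ l) e2, co_shift hco' _ e0, norm_mul,
        norm_pow, nρ]
      by_cases h1 : l ≤ 2 ^ s
      · rw [if_pos h1]
        have e2 : ‖co (2 ^ s - l) (fun z => Complex.exp (g i z) ^ l)‖ * κ ^ sd (2 ^ s - l) ≤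
            3 ^ l :=
          (single hκ1 (Nat.sub_le _ _) _).trans ((n2 (2 ^ s) l _ (ea i)).trans
            (pow_le_pow_left₀ (NN_nonneg hκ1 _ _) (eg i _ (main _ i)) l))
        have e3 : κ ^ s ≤ κ ^ (sd (2 ^ s - l) + (l - 1)) :=
          pow_le_pow_right₀ hκ1 (dig s l hl h1)
        have e4 : κ * κ ^ (l - 1) = κ ^ l := by
          rw [← pow_succ', Nat.sub_add_cancel hl]
        obtain ⟨n, hn⟩ : ∃ n : ℝ, n = ‖co (2 ^ s - l) (fun z => Complex.exp (g i z) ^ l)‖ :=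
          ⟨_, rfl⟩
        rw [← hn] at e2 ⊢
        have hn0 : 0 ≤ n := by rw [hn]; exact norm_nonneg _
        have hρl : 0 ≤ ρ i ^ l := pow_nonneg (hρ0 i).le l
        calc κ * (κ ^ s * (ρ i ^ l * n))
            ≤ κ * (κ ^ (sd (2 ^ s - l) + (l - 1)) * (ρ i ^ l * n)) :=
              mul_le_mul_of_nonneg_left (mul_le_mul_of_nonneg_right e3 (by positivity)) hκ0.le
          _ = κ ^ l * ρ i ^ l * (n * κ ^ sd (2 ^ s - l)) := by
              rw [pow_add, ← e4]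
              ring
          _ ≤ κ ^ l * ρ i ^ l * 3 ^ l := mul_le_mul_of_nonneg_left e2 (by positivity)
          _ = (3 * κ * ρ i) ^ l := by
              rw [mul_pow, mul_pow]
              ring
      · rw [if_neg h1, norm_zero, mul_zero, mul_zero, mul_zero]
        exact pow_nonneg (by have := hρ0 i; positivity) l
    have hpart : ∀ N : ℕ, κ * (κ ^ s * ‖∑ l ∈ Finset.range N,
        co l (L i) * co (2 ^ s) (fun z => h i z ^ l)‖) ≤ C * κ ^ 2 * ρ i ^ 2 := by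
      intro N
      have e1 : κ * (κ ^ s * ‖∑ l ∈ Finset.range N,
          co l (L i) * co (2 ^ s) (fun z => h i z ^ l)‖) ≤
          κ * (κ ^ s * ∑ l ∈ Finset.range N,
            ‖co l (L i)‖ * ‖co (2 ^ s) (fun z => h i z ^ l)‖) := by
        refine mul_le_mul_of_nonneg_left (mul_le_mul_of_nonneg_left ?_ (by positivity)) hκ0.le
        refine (norm_sum_le _ _).trans (le_of_eq ?_)
        refine Finset.sum_congr rfl fun l _ => ?_
        rw [norm_mul]
      have e2 : κ * (κ ^ s * ∑ l ∈ Finset.range N,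
            ‖co l (L i)‖ * ‖co (2 ^ s) (fun z => h i z ^ l)‖) ≤
          ∑ l ∈ Finset.range N, ‖co l (L i)‖ * (3 * κ * ρ i) ^ l := by
        rw [Finset.mul_sum, Finset.mul_sum]
        refine Finset.sum_le_sum fun l _ => ?_
        rcases Nat.eq_zero_or_pos l with hl | hl
        · rw [hl, co_zero, S.L_zero, norm_zero, zero_mul, mul_zero, mul_zero, zero_mul]
        · have e3 := mul_le_mul_of_nonneg_left (hterm l hl) (norm_nonneg (co l (L i)))
          linarith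
      have e3 := Lsum i (3 * κ * ρ i) (by have := hρ0 i; positivity) (bd1 i) N
      linarith [tbd i]
    have hlim : κ * (κ ^ s * ‖co (2 ^ s) (fun ζ => L i (h i ζ))‖) ≤ C * κ ^ 2 * ρ i ^ 2 :=
      le_of_tendsto' ((hs.tendsto_sum_nat.norm.const_mul (κ ^ s)).const_mul κ) hpart
    refine le_of_mul_le_mul_left (hlim.trans (le_of_eq ?_)) hκ0
    ring
  -- one step
  have step : ∀ i r, |‖(2 : ℂ) ^ (r + 1) * co (2 ^ (r + 1)) (g i)‖ -
      ‖(2 : ℂ) ^ r * co (2 ^ r) (g (i + 1))‖| ≤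
      2 ^ r * ‖co (2 ^ (r + 1)) (fun ζ => L i (h i ζ))‖ := by
    intro i r
    have e1 := eqco i (2 ^ (r + 1))
    have e2 := (n4 0 (g (i + 1)) (σ i) (ga _) (S.hσ i)).2
    have e3 : co (2 ^ (r + 1)) (fun ζ => g (i + 1) (σ i * ζ ^ 2)) =
        σ i ^ (2 ^ r) * co (2 ^ r) (g (i + 1)) := by
      have e4 := (n4 (2 ^ r) (g (i + 1)) (σ i) (ga _) (S.hσ i)).2
      rw [pow_succ', ← e4]
    rw [e3] at e1
    have e4 : ‖(2 : ℂ) ^ r * co (2 ^ r) (g (i + 1))‖ =
        ‖σ i ^ (2 ^ r) * ((2 : ℂ) ^ r * co (2 ^ r) (g (i + 1)))‖ := by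
      rw [norm_mul (σ i ^ (2 ^ r)), norm_pow, S.hσ, one_pow, one_mul]
    have e5 : (2 : ℂ) ^ (r + 1) * co (2 ^ (r + 1)) (g i) -
        σ i ^ (2 ^ r) * ((2 : ℂ) ^ r * co (2 ^ r) (g (i + 1))) =
        -((2 : ℂ) ^ r * co (2 ^ (r + 1)) (fun ζ => L i (h i ζ))) := by
      have e6 : (2 : ℂ) ^ (r + 1) * co (2 ^ (r + 1)) (g i) =
        (2 : ℂ) ^ r * (2 * co (2 ^ (r + 1)) (g i)) := by ring
      rw [e6, e1]
      ring
    rw [e4]
    refine (abs_norm_sub_norm_le _ _).trans (le_of_eq ?_)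
    rw [e5, norm_neg, norm_mul, norm_pow, Complex.norm_ofNat]
  have grow : ∀ r i, ρ i ≤ 4 ^ r * ρ (i + r) := by
    intro r
    induction r with
    | zero => intro i; rw [pow_zero, one_mul, add_zero]
    | succ r ih =>
      intro i
      have e1 := ih i
      have e2 := S.ρ_step (i + r)
      have e3 := mul_le_mul_of_nonneg_left e2 (show (0 : ℝ) ≤ 4 ^ r by positivity)
      rw [pow_succ, ← add_assoc i r 1]
      linarith
  obtain ⟨q, hq⟩ : ∃ q : ℝ, q = 32 / κ := ⟨_, rfl⟩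
  have hq0 : 0 < q := by rw [hq]; positivity
  have hqκ : q * κ = 32 := by rw [hq]; field_simp
  have hq1 : 2 * q ≤ 1 := by
    rw [hq]
    rw [← mul_div_assoc, div_le_one hκ0]
    linarith
  have fin : ∀ r i, |‖(2 : ℂ) ^ (r + 1) * co (2 ^ (r + 1)) (g i)‖ - ‖2 * co 2 (g (i + r))‖| ≤
      C * ρ (i + r) ^ 2 * ∑ j ∈ Finset.range r, q ^ (j + 1) := by
    intro r
    induction r with
    | zero =>
      intro i
      rw [zero_add, pow_one, pow_one, add_zero, sub_self, abs_zero, Finset.range_zero,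
        Finset.sum_empty, mul_zero]
    | succ r ih =>
      intro i
      have e1 := ih (i + 1)
      have e2 : i + 1 + r = i + (r + 1) := by omega
      rw [e2] at e1
      have e3 := step i (r + 1)
      have e4 := est i (r + 1 + 1)
      have e5 := grow (r + 1) i
      have e6 : 2 ^ (r + 1) * ‖co (2 ^ (r + 1 + 1)) (fun ζ => L i (h i ζ))‖ ≤
          C * ρ (i + (r + 1)) ^ 2 * q ^ (r + 1) := by
        obtain ⟨x, hx⟩ : ∃ x : ℝ, x = ‖co (2 ^ (r + 1 + 1)) (fun ζ => L i (h i ζ))‖ := ⟨_, rfl⟩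
        rw [← hx] at e4 ⊢
        have e7 : ρ i ^ 2 ≤ (4 ^ (r + 1) * ρ (i + (r + 1))) ^ 2 :=
          pow_le_pow_left₀ (hρ0 i).le e5 2
        have e8 : κ ^ (r + 1) * x ≤ C * ρ i ^ 2 := by
          refine le_of_mul_le_mul_left ?_ hκ0
          rw [pow_succ κ (r + 1)] at e4
          linarith
        have e9 : κ ^ (r + 1) * x ≤ C * (4 ^ (r + 1) * ρ (i + (r + 1))) ^ 2 :=
          e8.trans (mul_le_mul_of_nonneg_left e7 (by linarith))
        refine le_of_mul_le_mul_left ?_ (pow_pos hκ0 (r + 1))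
        calc κ ^ (r + 1) * (2 ^ (r + 1) * x) = 2 ^ (r + 1) * (κ ^ (r + 1) * x) := by ring
          _ ≤ 2 ^ (r + 1) * (C * (4 ^ (r + 1) * ρ (i + (r + 1))) ^ 2) :=
              mul_le_mul_of_nonneg_left e9 (by positivity)
          _ = C * ρ (i + (r + 1)) ^ 2 * (32 : ℝ) ^ (r + 1) := by
              have e10 : (32 : ℝ) ^ (r + 1) = 2 ^ (r + 1) * (4 ^ (r + 1)) ^ 2 := by
                rw [← pow_mul, mul_comm (r + 1) 2, pow_mul, ← mul_pow]
                norm_num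
              rw [e10]
              ring
          _ = κ ^ (r + 1) * (C * ρ (i + (r + 1)) ^ 2 * q ^ (r + 1)) := by
              rw [← hqκ, mul_pow]
              ring
      rw [Finset.sum_range_succ, mul_add]
      have e7 := abs_sub_le ‖(2 : ℂ) ^ (r + 1 + 1) * co (2 ^ (r + 1 + 1)) (g i)‖
        ‖(2 : ℂ) ^ (r + 1) * co (2 ^ (r + 1)) (g (i + 1))‖ ‖2 * co 2 (g (i + (r + 1)))‖
      linarith
  have geo : ∀ r, ∑ j ∈ Finset.range r, q ^ (j + 1) + 2 * q ^ (r + 1) ≤ 2 * q := by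
    intro r
    induction r with
    | zero => simp
    | succ r ih =>
      rw [Finset.sum_range_succ]
      have e1 : 2 * q ^ (r + 1 + 1) = 2 * q * q ^ (r + 1) := by ring
      have e2 : 2 * q * q ^ (r + 1) ≤ 1 * q ^ (r + 1) :=
        mul_le_mul_of_nonneg_right hq1 (by positivity)
      linarith
  intro i r
  refine (fin r i).trans ?_
  have e1 : ∑ j ∈ Finset.range r, q ^ (j + 1) ≤ 2 * q := by
    have e2 : 0 ≤ 2 * q ^ (r + 1) := by positivity
    linarith [geo r]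
  have e2 : C * ρ (i + r) ^ 2 * ∑ j ∈ Finset.range r, q ^ (j + 1) ≤ C * ρ (i + r) ^ 2 * (2 * q) :=
    mul_le_mul_of_nonneg_left e1 (by positivity)
  refine e2.trans (le_of_eq ?_)
  have e3 : C * q = 1 / 8 := by
    have e4 : C = κ / 256 := by rw [hκ]; ring
    rw [e4]
    linarith
  linear_combination (2 * ρ (i + r) ^ 2) * e3

end Pool.Agent.P8H45.SR.Core
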